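import Pool.Agent.V11273.PV.G17

/-!
# The elliptic analogue of Schanuel's conjecture in bounded degree and height at almost all algebraic points of all
analytic maps

Let `Λ_1, …, Λ_q` be arbitrary lattices which are pairwise not isogenous (for the conjecture: one lattice `Ω`). Let
`p_1, …, p_n` be analytic functions of `d ≥ 1` variables `z` on a nonempty connected open set `U` of `ℂ^d`, where `p_i` belongs
to the lattice `Λ_(t i)` and omits its elements, such that for every lattice no nontrivial combination of the functions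
which belong to it, with coefficients in its ring of multipliers, is constant, and let `l_1, …, l_s` be analytic functions on
`U` such that no nontrivial combination of them with integral coefficients is constant. There is no other condition: the
functions may be algebraic, elliptic logarithms of algebraic functions, exponentials, or have no special properties at all.

For a point `z` at which the `p_i(z)` are linearly independent over the field of multiplications, the elliptic analogue of
Schanuel's conjecture says that `2 n` of the numbers `g₂, g₃, p_i(z), ℘(p_i(z)), ζ(p_i(z))` are algebraically independent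
(and the generalised period conjecture says the same for several lattices and exponentials, with `2 n + s`). We prove this
in bounded degree and height for almost all algebraic points `z`: one can choose `2 n + s` of the `3 n + 2 s` functions

  `p_i(z)`, `℘(p_i(z))`, `ζ(p_i(z))`, `l_k(z)`, `exp(l_k(z))`

such that at all points `z ∈ U` with coordinates of height at most `T` in a number field of degree at most `ω T`, outside of
a sparse set, the chosen numbers satisfy no polynomial relation of degree at most `ω T` and height at most `T ^ ω T`, not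
even with coefficients which are combinations of arbitrary fixed complex numbers `ξ_i` (for instance of the monomials of
bounded degree in `g₂, g₃`, in the periods and quasi-periods of the lattices, and in `2 π i`). Here `ω T → ∞`.
-/

set_option autoImplicit false

open Filter NumberField
open scoped PeriodPair

namespace Pool.Agent.Results.MP_2ad15a_nt.AllAnalyticMaps

/-- The Weierstrass zeta function `ζ(z) = ∑ (1/(z-l) + 1/l + z/l²)`, the sum over the lattice (the summand of `l = 0` is
`1/z`, as `1/0 = 0`). -/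
noncomputable def ζ (L : PeriodPair) (z : ℂ) : ℂ := ∑' l : L.lattice, (1 / (z - l) + 1 / l + z / l ^ 2)

/-- `a` is a multiplier of the lattice: an endomorphism of the elliptic curve -/
def Multiplier (L : PeriodPair) (a : ℂ) : Prop := ∀ w ∈ L.lattice, a * w ∈ L.lattice

/-- there is no nonzero homomorphism of elliptic curves -/
def NotIsogenous (L M : PeriodPair) : Prop := ∀ a : ℂ, (∀ w ∈ L.lattice, a * w ∈ M.lattice) → a = 0

/-- An analytic map: functions `p_i` with values in `ℂ` minus the lattice of number `t i`, independent modulo constants over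
the multipliers, and functions `l_k` which are independent modulo constants over the integers. -/
structure Map {X : Type} [Fintype X] (U : Set (X → ℂ)) {q n s : ℕ} (Λ : Fin q → PeriodPair) (t : Fin n → Fin q)
    (p : Fin n → (X → ℂ) → ℂ) (l : Fin s → (X → ℂ) → ℂ) : Prop where
  isOpen : IsOpen U
  isPreconnected : IsPreconnected U
  nonempty : U.Nonempty
  notIsogenous : ∀ c c', c ≠ c' → NotIsogenous (Λ c) (Λ c')
  analytic : ∀ i, AnalyticOnNhd ℂ (p i) U
  notMem : ∀ i, ∀ z ∈ U, p i z ∉ (Λ (t i)).lattice
  independent : ∀ (c : Fin q) (a : Fin n → ℂ), (∀ i, Multiplier (Λ c) (a i)) → (∀ i, t i ≠ c → a i = 0) → a ≠ 0 →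
    ∀ b : ℂ, ∃ z ∈ U, ∑ i, a i * p i z ≠ b
  analytic_l : ∀ k, AnalyticOnNhd ℂ (l k) U
  linear : ∀ m : Fin s → ℤ, m ≠ 0 → ∀ b : ℂ, ∃ z ∈ U, ∑ k, (m k : ℂ) * l k z ≠ b

/-- The names of the functions `l_k`, `exp(l_k)`, `p_i`, `ζ(p_i)`, `℘(p_i)`, in this order. -/
abbrev Name (n s : ℕ) : Type := Fin s ⊕ (Fin s ⊕ (Fin n ⊕ (Fin n ⊕ Fin n)))

/-- The values of the functions at the point `z`. -/
noncomputable def value {X : Type} {q n s : ℕ} (Λ : Fin q → PeriodPair) (t : Fin n → Fin q)
    (p : Fin n → (X → ℂ) → ℂ) (l : Fin s → (X → ℂ) → ℂ) (z : X → ℂ) : Name n s → ℂ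
  | Sum.inl k => l k z
  | Sum.inr (Sum.inl k) => Complex.exp (l k z)
  | Sum.inr (Sum.inr (Sum.inl i)) => p i z
  | Sum.inr (Sum.inr (Sum.inr (Sum.inl i))) => ζ (Λ (t i)) (p i z)
  | Sum.inr (Sum.inr (Sum.inr (Sum.inr i))) => ℘[Λ (t i)] (p i z)

/-- quotients of two integers of `K`, all conjugates of which are at most `T` -/
def HeightLe (K : Type) [Field K] [NumberField K] (T : ℝ) (x : K) : Prop :=
  ∃ a b : 𝓞 K, b ≠ 0 ∧ house (a : K) ≤ T ∧ house (b : K) ≤ T ∧ x = a / b

/-- `S` is covered by at most `m` hypersurfaces of degree at most `D` -/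
def CoveredBy {X : Type} (D m : ℕ) (S : Set (X → ℂ)) : Prop :=
  ∃ Φ : Finset (MvPolynomial X ℂ), Φ.card ≤ m ∧ (∀ P ∈ Φ, P ≠ 0 ∧ P.totalDegree ≤ D) ∧
    ∀ x ∈ S, ∃ P ∈ Φ, MvPolynomial.eval x P = 0

/-- the points of norm at most `k` at distance at least `1 / k` from the complement of `U` -/
def Inner {X : Type} [Fintype X] (U : Set (X → ℂ)) (k : ℕ) : Set (X → ℂ) :=
  {z | ‖z‖ ≤ k ∧ Metric.ball z (k : ℝ)⁻¹ ⊆ U}

/-- the partial degrees of `P` are at most `k`, and its coefficients are `∑ ξ i * c i`, `i < k`, where the `c i` are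
integers of `K`, all conjugates of which are at most `T ^ k` -/
def Small {σ : Type} (K : Type) [Field K] [NumberField K] (io : K →+* ℂ) (k : ℕ) (ξ : Fin k → ℂ) (T : ℝ)
    (P : MvPolynomial σ ℂ) : Prop :=
  (∀ y, P.degreeOf y ≤ k) ∧ ∀ m, ∃ c : Fin k → 𝓞 K, (∀ i (φ : K →+* ℂ), ‖φ (c i : K)‖ ≤ T ^ (k : ℝ)) ∧
    P.coeff m = ∑ i, ξ i * io (c i : K)

/-- The exceptional points `z` over `K`: they are of height at most `T`, in the compact set `Inner U k`, and some nonzero
small polynomial vanishes at the numbers `value Λ t p l z a`, `a ∈ A`. -/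
def Exceptional {X : Type} [Fintype X] {q n s : ℕ} (U : Set (X → ℂ)) (Λ : Fin q → PeriodPair) (t : Fin n → Fin q)
    (p : Fin n → (X → ℂ) → ℂ) (l : Fin s → (X → ℂ) → ℂ) (A : Finset (Name n s))
    (K : Type) [Field K] [NumberField K] (io : K →+* ℂ) (k : ℕ) (ξ : Fin k → ℂ) (T : ℝ) : Set (X → K) :=
  {z | (∀ i, HeightLe K T (z i)) ∧ (fun i => io (z i)) ∈ Inner U k ∧
    ∃ P : MvPolynomial A ℂ, Small K io k ξ T P ∧
      MvPolynomial.eval (fun a => value Λ t p l (fun i => io (z i)) a.1) P = 0 ∧ P ≠ 0}

/-- Let `(p, l)` be an analytic map on a nonempty connected open set `U` of `ℂ^d`, `d ≥ 1`, with `n + s ≥ 1`. There is a set `A`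
of `2 n + s` of the `3 n + 2 s` functions `p_i`, `℘(p_i)`, `ζ(p_i)`, `l_k`, `exp(l_k)`, and there is `ω → ∞`, such that for all
large `T`, all number fields `K` of degree at most `ω T`, embedded in `ℂ`, and all complex numbers `ξ i`, `i < ω T`, the set of
the exceptional points lies on at most `T ^ (1 / ω T)` hypersurfaces of degree at most `T ^ (1 / ω T)`, and has at most
`T ^ (1 / ω T) * N ^ (d - 1)` elements, where `N` is the number of the elements of `K` of height at most `T`. At all other points
`z` with coordinates in `K` of height at most `T` (in `Inner U (ω T)`) the `2 n + s` numbers given by `A` satisfy no nonzero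
polynomial relation of partial degrees at most `ω T` with coefficients `∑ ξ i * c i`, `c i` integers of `K` of size at most
`T ^ ω T`. -/
theorem result {X : Type} [Fintype X] [DecidableEq X] [Nonempty X] {q n s : ℕ} (hns : 0 < s + n) (U : Set (X → ℂ))
    (Λ : Fin q → PeriodPair) (t : Fin n → Fin q) (p : Fin n → (X → ℂ) → ℂ) (l : Fin s → (X → ℂ) → ℂ)
    (hM : Map U Λ t p l) :
    ∃ A : Finset (Name n s), A.card = s + 2 * n ∧
    ∃ (ω : ℝ → ℕ) (T₀ : ℝ), Tendsto ω atTop atTop ∧ Monotone ω ∧ ∀ T, T₀ ≤ T → 0 < ω T ∧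
      ∀ (K : Type) [Field K] [NumberField K], Module.finrank ℚ K ≤ ω T → ∀ (io : K →+* ℂ) (ξ : Fin (ω T) → ℂ),
        CoveredBy ⌊T ^ ((ω T : ℝ)⁻¹)⌋₊ ⌊T ^ ((ω T : ℝ)⁻¹)⌋₊
          ((fun z i => io (z i)) '' Exceptional U Λ t p l A K io (ω T) ξ T) ∧
        (Exceptional U Λ t p l A K io (ω T) ξ T).Finite ∧
        ((Exceptional U Λ t p l A K io (ω T) ξ T).ncard : ℝ) ≤
          T ^ ((ω T : ℝ)⁻¹) * ({x : K | HeightLe K T x}.ncard : ℝ) ^ (Fintype.card X - 1) := by
  have hv : value Λ t p l = fun z a => Pool.Agent.V11273.PV.yD Λ t p l a z := by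
    funext z a
    rcases a with k | k | i | i | i <;> rfl
  obtain ⟨A, hA, h⟩ := Pool.Agent.V11273.PV.main_fx (U := U) (Λ := Λ) (ty := t) (u := p) (l := l)
    ⟨hM.isOpen, hM.isPreconnected, hM.nonempty, hM.notIsogenous, hM.analytic, hM.notMem, (by
      intro c a b ha hta hb
      by_contra hne
      obtain ⟨z, hz, hzn⟩ := hM.independent c a ha hta hne b
      exact hzn (hb z hz)), hM.analytic_l, (by
      intro m b hb
      by_contra hne
      obtain ⟨z, hz, hzn⟩ := hM.linear m hne b
      exact hzn (hb z hz))⟩ hns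
  refine ⟨A, hA, ?_⟩
  unfold Exceptional
  rw [hv]
  exact h

end Pool.Agent.Results.MP_2ad15a_nt.AllAnalyticMaps
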