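import Pool.Agent.Helper264.NT.NearR
import Pool.Agent.Y627.KW.EllC
import Pool.Agent.TH818.AP.Wp2

/-!
# Elliptic logarithms of all tuples near all points outside of a set of dimension `n - 1`

For points `p_i` with `℘ (p_i)` algebraic (and algebraic invariants) the elliptic analogue of Schanuel's conjecture
predicts that the `2 n` numbers `p_i`, `ζ (p_i)` are algebraically independent. We consider, for arbitrary lattices
`L_1, …, L_n`, analytic branches `p_j` of the inverse functions of `℘_j` on open connected sets `S_j`, complex numbers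
`λ_1, …, λ_r` linearly independent over `ℚ`, and `x = (x_1, …, x_n)` in `K ^ n`, `K` any number field in `ℂ`, the numbers
`π`, `p_j (x_j)`, `ζ_j (p_j (x_j))`, `exp (λ_l p_j (x_j))`; and the real case (lattices stable under complex conjugation).
Results of this pool (`EllipticLogarithms`, `NumberFieldTuples`) say that the tuples of height at most `T` for which these
numbers satisfy a relation of degree at most `d` and height at most `T ^ A` lie on few hypersurfaces; they say nothing
about the tuples near a given point.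

Here there are no exceptional tuples: there is one subset `E` of `ℝ ^ n` (of `ℂ ^ n`) of Hausdorff dimension at most
`n - 1` (at most `2 (n - 1)`) such that for all `y` in the product of the `S_j` outside of `E`, all number fields `K`, all
degrees `d`, all `A` and ALL exponents `w > 0` (arbitrarily small), no tuple `x` in `K ^ n` of height at most `T` with
`|x - y| ≤ T ^ (-w)` satisfies a relation, even an approximate one, of degree at most `d` and height at most `T ^ A`, if
`T` is large. For `w < 1` and every real `y` there are such rational tuples for all large `T`. The bound for the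
dimension is sharp: if `L_1 = L_2`, `p_1 = p_2` and `y_1 = y_2` then there are rational tuples with `x_1 = x_2` near `y`, so
`E` contains these hyperplanes.

Proof: the exceptional tuples lie on `C T ^ ε` hypersurfaces of degree at most `D` (`Pool.Agent.Y771.KF.stdK` of helper771
and helper124, with the algebraic independence of the functions). The new part: the zeros of any nonzero polynomial of
degree at most `D` in a ball are covered by `C δ ^ (-s)` balls of radius `δ`, for every `s > n - 1` (`s > 2 (n - 1)`), where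
`C` depends only on `n`, `D` and `s` (`Pool.Agent.Helper264.NT.cov_zeros`), so that the points near exceptional tuples form
a set of dimension at most `n - 1` (`2 (n - 1)`).
-/

set_option autoImplicit false

open Height
open scoped ENNReal PeriodPair

namespace Pool.Agent.Results.MP_2ad15a_nt.NearEveryPoint

/-- The Weierstrass zeta function `ζ(z) = ∑ (1/(z-l) + 1/l + z/l²)`, the sum over the lattice (the summand of `l = 0` is
`1/z`, since `1/0 = 0` in Lean). -/
noncomputable def zeta (L : PeriodPair) (z : ℂ) : ℂ := ∑' l : L.lattice, (1 / (z - l) + 1 / l + z / l ^ 2)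

/-- The `n (r + 2) + 1` numbers `π`, `exp (λ_l p_j (x_j))`, `p_j (x_j)`, `ζ_j (p_j (x_j))`. -/
noncomputable def numbers {n r : ℕ} (L : Fin n → PeriodPair) (lam : Fin r → ℂ)
    (p : Fin n → ℂ → ℂ) (x : Fin n → ℂ) : Option (Fin n × (Fin r ⊕ Fin 2)) → ℂ
  | none => (Real.pi : ℂ)
  | some (j, Sum.inl l) => Complex.exp (lam l * p j (x j))
  | some (j, Sum.inr 0) => p j (x j)
  | some (j, Sum.inr 1) => zeta (L j) (p j (x j))

/-- The `2 n + 1` numbers `π`, `p_j (x_j)`, `ζ_j (p_j (x_j))` for real functions `p_j`. -/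
noncomputable def realNumbers {n : ℕ} (L : Fin n → PeriodPair) (p : Fin n → ℝ → ℝ) (x : Fin n → ℝ) :
    Option (Fin n × Fin 2) → ℂ
  | none => (Real.pi : ℂ)
  | some (j, 0) => p j (x j)
  | some (j, 1) => zeta (L j) (p j (x j))

/-- every nonzero polynomial with coefficients in `K` (embedded in `ℂ` by `τ`) of height at most `T ^ A`, of degree at
most `d` in each variable, takes at the numbers `v` a value of absolute value greater than `T ^ (-B)` -/
def NoRelation {I : Type} {K : Type} [Field K] [NumberField K] (τ : K →+* ℂ) (d : ℕ) (A B T : ℝ) (v : I → ℂ) : Prop :=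
  ∀ P : MvPolynomial I K, P ≠ 0 → (∀ i, P.degreeOf i ≤ d) → (∀ s, mulHeight₁ (P.coeff s) ≤ T ^ A) →
    T ^ (-B) < ‖MvPolynomial.eval₂ τ v P‖

/-- Let `n ≥ 1` and let `L_1, …, L_n` be lattices.
1. Let the `L_j` be stable under complex conjugation, `p_j` real analytic on the open interval `(a_j, b_j)` with values
outside `L_j` and `℘_j (p_j (t)) = t`. There is a subset `E` of `ℝ ^ n` of Hausdorff dimension at most `n - 1` such that for
all `y` outside of `E` with `a_j < y_j < b_j`, all real number fields `K`, all `d`, `A` and `w > 0` there are `B` and `T₀`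
such that for all `T ≥ T₀`, for all `n`-tuples `x` of elements of `K` of height at most `T` with `|x_j - y_j| ≤ T ^ (-w)`,
the numbers `π`, `p_j (x_j)`, `ζ_j (p_j (x_j))` have no relation.
2. Let `S_j` be open connected subsets of `ℂ`, `p_j` analytic on `S_j` with values outside `L_j` and `℘_j (p_j (t)) = t`,
and let `λ_1, …, λ_r` be linearly independent over `ℚ`. The same holds for the numbers `π`, `exp (λ_l p_j (x_j))`,
`p_j (x_j)`, `ζ_j (p_j (x_j))`, all number fields `K` in `ℂ` and all `y` in the product of the `S_j` outside of a subset `E`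
of `ℂ ^ n` of dimension at most `2 (n - 1)`. -/
theorem result (n : ℕ) (hn : 1 ≤ n) (L : Fin n → PeriodPair) :
    (∀ (_ : ∀ j, ∀ l ∈ (L j).lattice, (starRingEnd ℂ) l ∈ (L j).lattice) (a b : Fin n → ℝ) (_ : ∀ j, a j < b j)
      (p : Fin n → ℝ → ℝ) (_ : ∀ j, AnalyticOnNhd ℝ (p j) (Set.Ioo (a j) (b j)))
      (_ : ∀ j, ∀ t ∈ Set.Ioo (a j) (b j), (p j t : ℂ) ∉ (L j).lattice)
      (_ : ∀ j, ∀ t ∈ Set.Ioo (a j) (b j), ℘[L j] (p j t) = t),
      ∃ E : Set (Fin n → ℝ), dimH E ≤ ((n - 1 : ℕ) : ℝ≥0∞) ∧ ∀ y ∉ E, (∀ j, a j < y j ∧ y j < b j) →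
        ∀ (K : IntermediateField ℚ ℝ) [NumberField K] (d : ℕ) (A w : ℝ), 0 < w → ∃ B T₀ : ℝ, ∀ T ≥ T₀,
          ∀ x : Fin n → K, (∀ j, mulHeight₁ (x j) ≤ T ∧ |(x j : ℝ) - y j| ≤ T ^ (-w)) →
            NoRelation (Complex.ofRealHom.comp (algebraMap K ℝ)) d A B T (realNumbers L p fun j => (x j : ℝ))) ∧
    (∀ (r : ℕ) (lam : Fin r → ℂ) (_ : ∀ c : Fin r → ℤ, ∑ l, (c l : ℂ) * lam l = 0 → c = 0)
      (S : Fin n → Set ℂ) (_ : ∀ j, IsOpen (S j)) (_ : ∀ j, IsConnected (S j))
      (p : Fin n → ℂ → ℂ) (_ : ∀ j, AnalyticOnNhd ℂ (p j) (S j)) (_ : ∀ j, ∀ t ∈ S j, p j t ∉ (L j).lattice)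
      (_ : ∀ j, ∀ t ∈ S j, ℘[L j] (p j t) = t),
      ∃ E : Set (Fin n → ℂ), dimH E ≤ ((2 * (n - 1) : ℕ) : ℝ≥0∞) ∧ ∀ y ∉ E, (∀ j, y j ∈ S j) →
        ∀ (K : IntermediateField ℚ ℂ) [NumberField K] (d : ℕ) (A w : ℝ), 0 < w → ∃ B T₀ : ℝ, ∀ T ≥ T₀,
          ∀ x : Fin n → K, (∀ j, mulHeight₁ (x j) ≤ T ∧ ‖(x j : ℂ) - y j‖ ≤ T ^ (-w)) →
            NoRelation (algebraMap K ℂ) d A B T (numbers L lam p fun j => (x j : ℂ))) := by
  have hnn : Nonempty (Fin n) := ⟨⟨0, hn⟩⟩
  refine ⟨?_, ?_⟩
  · intro hL a b hab p hp hpL hpt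
    obtain ⟨E, hE1, hE2⟩ := Pool.Agent.Helper264.NT.mainR (X := Fin n) (κ := Fin 2)
      (fun j => ![p j, fun t => (H667R3.zeta (L j) (p j t)).re]) (fun j => Set.Ioo (a j) (b j)) (fun _ => isOpen_Ioo)
      (fun _ => isPreconnected_Ioo) (by
        intro j i t ht
        have hsub : ∀ u ∈ Set.Icc t t, u ∈ Set.Ioo (a j) (b j) := by
          intro u hu
          have : u = t := le_antisymm hu.2 hu.1
          rw [this]; exact ht
        fin_cases i
        · exact hp j t ht
        · exact TH818.AP.an_zeta (fun u hu => hp j u (hsub u hu)) (fun u hu => hpL j u (hsub u hu)) t ⟨le_rfl, le_rfl⟩)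
      (by
        intro j
        have h1 : (2 * a j + b j) / 3 < (a j + 2 * b j) / 3 := by linarith [hab j]
        have hsub : Set.Icc ((2 * a j + b j) / 3) ((a j + 2 * b j) / 3) ⊆ Set.Ioo (a j) (b j) :=
          fun t ht => ⟨by linarith [ht.1, hab j], by linarith [ht.2, hab j]⟩
        exact Pool.Agent.Helper264.NT.aindepS_of_rindep _ _ _ (fun d => TH818.AP.wp_indep2 d (hL j) h1
          (fun t ht => hp j t (hsub ht)) (fun t ht => hpL j t (hsub ht)) (fun t ht => hpt j t (hsub ht))) _ hsub)
    refine ⟨E, by simpa using hE1, fun y hy hyS K _ d A w hw => ?_⟩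
    obtain ⟨B, T0, h⟩ := hE2 y hy hyS K d A w hw
    refine ⟨B, T0, fun T hT x hx => ?_⟩
    refine Pool.Agent.Helper264.NT.norel_real (algebraMap K ℝ) _ _ ?_ d A B T (h T hT x hx).2
    intro o
    match o with
    | none => rfl
    | some (j, 0) => rfl
    | some (j, 1) => exact (TH818.AP.zeta_real (hL j) (p j (x j))).symm
  · intro r lam hlam S hSo hSc p hp hpL hpt
    obtain ⟨E, hE1, hE2⟩ := Pool.Agent.Helper264.NT.mainC (X := Fin n) (κ := Fin r ⊕ Fin 2)
      (fun j => Pool.Agent.Y627.KW.fB (L j) lam (p j)) S hSo (fun j => (hSc j).isPreconnected)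
      (fun j o => Pool.Agent.Y627.KW.fB_an (L j) lam (S j) (p j) (hp j) (hpL j) o)
      (fun j => Pool.Agent.Y627.KW.fB_indep (L j) lam hlam (S j) (hSo j) (hSc j).nonempty (p j) (hp j) (hpL j) (hpt j))
    refine ⟨E, by simpa using hE1, fun y hy hyS K _ d A w hw => ?_⟩
    obtain ⟨B, T0, h⟩ := hE2 y hy hyS K d A w hw
    refine ⟨B, T0, fun T hT x hx P hP hd hc => ?_⟩
    have h1 := (h T hT x hx).2 P hP hd hc
    have h2 : (fun o : Option (Fin n × (Fin r ⊕ Fin 2)) => o.elim (Real.pi : ℂ)
        fun c => Pool.Agent.Y627.KW.fB (L c.1) lam (p c.1) c.2 (x c.1)) = numbers L lam p fun j => (x j : ℂ) := by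
      funext o
      rcases o with _ | ⟨j, l | i⟩
      · rfl
      · rfl
      · fin_cases i <;> rfl
    rw [← h2]
    exact h1

end Pool.Agent.Results.MP_2ad15a_nt.NearEveryPoint
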