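import Pool.Agent.Helper264.NT.NearPV2
import Pool.Agent.V11273.PV.G17

/-!
# The elliptic analogue of Schanuel's conjecture in bounded degree and height at ALL algebraic points near almost every point,
for all analytic maps

Let `Λ_1, …, Λ_q` be lattices which are pairwise not isogenous, `p_1, …, p_n`, `l_1, …, l_s` analytic functions of `d ≥ 1`
variables `z` on a nonempty connected open set `U`, `p_i` of type `t(i)` and with `p_i(z) ∉ Λ_{t(i)}`. No nontrivial
combination of the `p_i` of one type with coefficients in the endomorphisms of the curve, and no nontrivial combination of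
the `l_k` with integral coefficients, is constant. There is no other condition: `p, l` may be any analytic map in a product of
elliptic curves and multiplicative groups the image of which is not in a translate of a proper algebraic subgroup.

For algebraic `g₂, g₃` and independent `p_i(z)` the elliptic analogue of Schanuel's conjecture says that the transcendence
degree of the numbers `p_i, ℘(p_i), ζ(p_i)` (and `g₂, g₃`) is at least `2 n`, and with Schanuel's conjecture at least
`2 n + s` with the numbers `l_k, exp(l_k)`. One can choose `2 n + s` of the `3 n + 2 s` functions with the following property.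
There is a set `E` in `ℂ^d` of Hausdorff dimension at most `2 d - 2` such that near every point `z` of `U` outside of `E` there
are no exceptional points: for all `w > 0` (arbitrarily small), all number fields `K` and all `k`, for large `T`, at ALL points
with coordinates in `K` of height at most `T` at distance at most `T ^ (-w)` from `z` the chosen numbers satisfy no nonzero
polynomial relation of partial degrees at most `k` with coefficients `∑ ξ i * c i`, `i < k`, `c i` integers of `K` of size at
most `T ^ k`, `ξ i` any given complex numbers (for instance the monomials in the `g₂, g₃`, the periods and quasiperiods of the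
lattices). For real points `z` the same holds outside of a set in `ℝ^d` of dimension at most `d - 1`.
-/

set_option autoImplicit false

open Filter NumberField
open scoped PeriodPair ENNReal

namespace Pool.Agent.Results.MP_2ad15a_nt.NearEveryPointAllMaps

/-- The Weierstrass zeta function `ζ(z) = ∑ (1/(z-l) + 1/l + z/l²)`, the sum over the lattice (the summand of `l = 0` is
`1/z`, as `1/0 = 0`). -/
noncomputable def ζ (L : PeriodPair) (z : ℂ) : ℂ := ∑' l : L.lattice, (1 / (z - l) + 1 / l + z / l ^ 2)

/-- `a` is a multiplier of the lattice: an endomorphism of the elliptic curve -/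
def Multiplier (L : PeriodPair) (a : ℂ) : Prop := ∀ w ∈ L.lattice, a * w ∈ L.lattice

/-- there is no nonzero homomorphism of elliptic curves -/
def NotIsogenous (L M : PeriodPair) : Prop := ∀ a : ℂ, (∀ w ∈ L.lattice, a * w ∈ M.lattice) → a = 0

/-- An analytic map: functions `p_i` with values in `ℂ` minus the lattice of number `t i`, independent modulo constants over
the multipliers, and functions `l_k` which are independent modulo constants over the integers. -/
structure Map {X : Type} [Fintype X] (U : Set (X → ℂ)) {q n s : ℕ} (Λ : Fin q → PeriodPair) (t : Fin n → Fin q)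
    (p : Fin n → (X → ℂ) → ℂ) (l : Fin s → (X → ℂ) → ℂ) : Prop where
  isOpen : IsOpen U
  isPreconnected : IsPreconnected U
  nonempty : U.Nonempty
  notIsogenous : ∀ c c', c ≠ c' → NotIsogenous (Λ c) (Λ c')
  analytic : ∀ i, AnalyticOnNhd ℂ (p i) U
  notMem : ∀ i, ∀ z ∈ U, p i z ∉ (Λ (t i)).lattice
  independent : ∀ (c : Fin q) (a : Fin n → ℂ), (∀ i, Multiplier (Λ c) (a i)) → (∀ i, t i ≠ c → a i = 0) → a ≠ 0 →
    ∀ b : ℂ, ∃ z ∈ U, ∑ i, a i * p i z ≠ b
  analytic_l : ∀ k, AnalyticOnNhd ℂ (l k) U
  linear : ∀ m : Fin s → ℤ, m ≠ 0 → ∀ b : ℂ, ∃ z ∈ U, ∑ k, (m k : ℂ) * l k z ≠ b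

/-- The names of the functions `l_k`, `exp(l_k)`, `p_i`, `ζ(p_i)`, `℘(p_i)`, in this order. -/
abbrev Name (n s : ℕ) : Type := Fin s ⊕ (Fin s ⊕ (Fin n ⊕ (Fin n ⊕ Fin n)))

/-- The functions with these names. -/
noncomputable def value {X : Type} {q n s : ℕ} (Λ : Fin q → PeriodPair) (t : Fin n → Fin q)
    (p : Fin n → (X → ℂ) → ℂ) (l : Fin s → (X → ℂ) → ℂ) : Name n s → (X → ℂ) → ℂ
  | Sum.inl k => l k
  | Sum.inr (Sum.inl k) => fun z => Complex.exp (l k z)
  | Sum.inr (Sum.inr (Sum.inl i)) => p i
  | Sum.inr (Sum.inr (Sum.inr (Sum.inl i))) => fun z => ζ (Λ (t i)) (p i z)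
  | Sum.inr (Sum.inr (Sum.inr (Sum.inr i))) => fun z => ℘[Λ (t i)] (p i z)

/-- quotients of two integers of `K`, all conjugates of which are at most `T` -/
def HeightLe (K : Type) [Field K] [NumberField K] (T : ℝ) (x : K) : Prop :=
  ∃ a b : 𝓞 K, b ≠ 0 ∧ house (a : K) ≤ T ∧ house (b : K) ≤ T ∧ x = a / b

/-- for a number field `K` embedded into `ℂ` by `io`: the partial degrees of `P` are at most `k`, and its coefficients are
`∑ ξ i * c i`, `i < k`, where the `c i` are integers of `K`, all conjugates of which are at most `T ^ k` -/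
def Small {σ : Type} (K : Type) [Field K] [NumberField K] (io : K →+* ℂ) (k : ℕ) (ξ : ℕ → ℂ) (T : ℝ)
    (P : MvPolynomial σ ℂ) : Prop :=
  (∀ y, P.degreeOf y ≤ k) ∧ ∀ m, ∃ c : Fin k → 𝓞 K, (∀ i (φ : K →+* ℂ), ‖φ (c i : K)‖ ≤ T ^ (k : ℝ)) ∧
    P.coeff m = ∑ i : Fin k, ξ i * io (c i : K)

/-- At all points `s` with coordinates in the number field `K` (embedded into `ℂ` by `io`) of height at most `T` and with
`|s i - z i| ≤ T ^ (-w)` for all `i`, no nonzero small polynomial vanishes at the numbers `v a s`. -/
def NoRelationNear {X S : Type} (v : S → (X → ℂ) → ℂ) (ξ : ℕ → ℂ) (z : X → ℂ) (w : ℝ) (K : Type) [Field K]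
    [NumberField K] (io : K →+* ℂ) (k : ℕ) (T : ℝ) : Prop :=
  ∀ s : X → K, (∀ i, HeightLe K T (s i)) → (∀ i, ‖io (s i) - z i‖ ≤ T ^ (-w)) →
    ∀ P : MvPolynomial S ℂ, Small K io k ξ T P →
      MvPolynomial.eval (fun a => v a fun i => io (s i)) P = 0 → P = 0

/-- The numbers `v a s` are independent in bounded degree and height at ALL algebraic points `s` near almost every point of
`U`, `d` being the number of coordinates:
(1) there is a set `E` in `ℂ ^ d` of Hausdorff dimension at most `2 (d - 1)` such that for all `z ∈ U` outside of `E`, all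
`w > 0`, all number fields `K ⊂ ℂ` and all `k`, `NoRelationNear v ξ z w K k T` holds for all large `T`;
(2) there is a set `E` in `ℝ ^ d` of dimension at most `d - 1` such that the same is true for all real `z ∈ U` outside of `E`
and all number fields `K ⊂ ℝ`. -/
def IndependentNearAlmostAll {X S : Type} [Fintype X] (U : Set (X → ℂ)) (v : S → (X → ℂ) → ℂ) (ξ : ℕ → ℂ) : Prop :=
  (∃ E : Set (X → ℂ), dimH E ≤ ((2 * (Fintype.card X - 1) : ℕ) : ℝ≥0∞) ∧ ∀ z ∈ U, z ∉ E → ∀ w : ℝ, 0 < w →
    ∀ (K : IntermediateField ℚ ℂ) [NumberField K] (k : ℕ), ∀ᶠ T : ℝ in atTop,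
      NoRelationNear v ξ z w K (algebraMap K ℂ) k T) ∧
  ∃ E : Set (X → ℝ), dimH E ≤ ((Fintype.card X - 1 : ℕ) : ℝ≥0∞) ∧
    ∀ z : X → ℝ, (fun i => (z i : ℂ)) ∈ U → z ∉ E → ∀ w : ℝ, 0 < w →
    ∀ (K : IntermediateField ℚ ℝ) [NumberField K] (k : ℕ), ∀ᶠ T : ℝ in atTop,
      NoRelationNear v ξ (fun i => (z i : ℂ)) w K (Complex.ofRealHom.comp (algebraMap K ℝ)) k T

/-- Let `(p, l)` be an analytic map on a nonempty connected open set `U` of `ℂ^d`, `d ≥ 1`, with `n + s ≥ 1`. There is a set `A`
of `2 n + s` of the `3 n + 2 s` functions `p_i`, `℘(p_i)`, `ζ(p_i)`, `l_k`, `exp(l_k)` such that for all complex numbers `ξ i`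
the numbers given by `A` are independent in bounded degree and height at ALL algebraic points near every point outside of a
set of dimension at most `2 (d - 1)` (complex points), `d - 1` (real points): see `IndependentNearAlmostAll`. -/
theorem result {X : Type} [Fintype X] [DecidableEq X] [Nonempty X] {q n s : ℕ} (hns : 0 < s + n) (U : Set (X → ℂ))
    (Λ : Fin q → PeriodPair) (t : Fin n → Fin q) (p : Fin n → (X → ℂ) → ℂ) (l : Fin s → (X → ℂ) → ℂ)
    (hM : Map U Λ t p l) :
    ∃ A : Finset (Name n s), A.card = s + 2 * n ∧ ∀ ξ : ℕ → ℂ,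
      IndependentNearAlmostAll U (fun (a : A) => value Λ t p l a.1) ξ := by
  classical
  have hv : value Λ t p l = Pool.Agent.V11273.PV.yD Λ t p l := by
    funext a z
    rcases a with k | k | i | i | i <;> rfl
  have hF : Pool.Agent.V11273.PV.FxD U Λ t p l :=
    ⟨hM.isOpen, hM.isPreconnected, hM.nonempty, hM.notIsogenous, hM.analytic, hM.notMem, (by
      intro c a b ha hta hb
      by_contra hne
      obtain ⟨z, hz, hzn⟩ := hM.independent c a ha hta hne b
      exact hzn (hb z hz)), hM.analytic_l, (by
      intro m b hb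
      by_contra hne
      obtain ⟨z, hz, hzn⟩ := hM.linear m hne b
      exact hzn (hb z hz))⟩
  obtain ⟨A, hA, hAi⟩ := Pool.Agent.V11273.PV.choose_fx hF hns
  have h1 : ∀ a : A, AnalyticOnNhd ℂ (Pool.Agent.V11273.PV.yD Λ t p l a.1) U := fun a =>
    Pool.Agent.V11273.PV.yD_an hF a.1
  refine ⟨A, hA, fun ξ => ?_⟩
  have h2 := Pool.Agent.Helper264.NT.near_two (S := A) (f := fun a : A => Pool.Agent.V11273.PV.yD Λ t p l a.1)
    hM.isPreconnected hM.isOpen hM.nonempty h1 hAi ξ
  rw [hv]
  exact h2

end Pool.Agent.Results.MP_2ad15a_nt.NearEveryPointAllMaps
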