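import Pool.Agent.Results.MP_2ad15a_nt.EllipticLogarithms
import Pool.Agent.V11300.PA.Rat

/-!
# Elliptic logarithms of ALL the rational points near almost every `p`-adic point, with a measure

Let `L_1, …, L_n` (`n ≥ 1`) be lattices stable under complex conjugation, `u_j` real analytic at every point of `[a_j, b_j]`
with values outside `L_j` and `℘_j(u_j(t)) = t`. Let `p` be a prime number and `κ > 0`. For all `α ∈ ℚ_p ^ n` outside of a set
of Hausdorff dimension at most `κ (2 n - 2 / ((d + 1) ^ (2 n + 1) + 1))` and all `A` there are `B`, `m₀` such that for all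
`m ≥ m₀`, with `T = p ^ (κ m)`, and ALL the rational `q_j` in `[a_j, b_j]` with denominators at most `T` and
`|q_j - α_j|_p ≤ p ^ (-m)`: every nonzero integral polynomial with coefficients at most `T ^ A`, of degree at most `d` in each
variable, has an absolute value larger than `T ^ (-B)` at the `2 n + 1` numbers `π`, `u_j(q_j)`, `ζ_j(u_j(q_j))`.
The definitions `numbers`, `Exceptional` are those of the starting file `EllipticLogarithms`.
-/

set_option autoImplicit false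

open Filter Topology
open scoped PeriodPair

namespace Pool.Agent.Results.MP_2ad15a_nt.PadicNeighbourhoods

open EllipticLogarithms (Exceptional numbers)

/-- **Theorem.** -/
theorem result (n d : ℕ) (hn : 1 ≤ n) (L : Fin n → PeriodPair)
    (hL : ∀ j, ∀ l ∈ (L j).lattice, (starRingEnd ℂ) l ∈ (L j).lattice) (a b : Fin n → ℝ) (hab : ∀ j, a j < b j)
    (u : Fin n → ℝ → ℝ) (hu : ∀ j, AnalyticOnNhd ℝ (u j) (Set.Icc (a j) (b j)))
    (huL : ∀ j, ∀ t ∈ Set.Icc (a j) (b j), (u j t : ℂ) ∉ (L j).lattice)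
    (hut : ∀ j, ∀ t ∈ Set.Icc (a j) (b j), ℘[L j] (u j t) = t)
    (p : ℕ) [Fact p.Prime] (κ : ℝ) (hκ : 0 < κ) :
    ∃ E : Set (Fin n → ℚ_[p]), dimH E ≤ ENNReal.ofReal (κ * (2 * n - 2 / (((d : ℝ) + 1) ^ (2 * n + 1) + 1))) ∧
      ∀ α : Fin n → ℚ_[p], α ∉ E → ∀ A : ℕ, ∃ (B : ℝ) (m₀ : ℕ), ∀ m : ℕ, m₀ ≤ m → ∀ q : Fin n → ℚ,
        (∀ j, a j ≤ q j ∧ q j ≤ b j ∧ ((q j).den : ℝ) ≤ (p : ℝ) ^ (κ * m)) →
        (∀ j, ‖((q j : ℚ) : ℚ_[p]) - α j‖ ≤ (p : ℝ) ^ (-(m : ℝ))) →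
        ∀ P : MvPolynomial (Option (Fin n × Fin 2)) ℤ, P ≠ 0 → (∀ x, P.degreeOf x ≤ d) →
          (∀ s, |((P.coeff s : ℤ) : ℝ)| ≤ ((p : ℝ) ^ (κ * m)) ^ (A : ℝ)) →
          ((p : ℝ) ^ (κ * m)) ^ (-B) < ‖MvPolynomial.aeval (numbers L u q) P‖ := by
  obtain ⟨E, h1, h2⟩ := Pool.Agent.V11300.PA.rational_points p hn (Pool.Agent.V11300.PA.beta_nonneg d (2 * n + 1)) hκ
    (fun A B T => Exceptional L u d a b A B T) (fun A β hA hβ => EllipticLogarithms.result n d hn L hL a b hab u hu huL hut A β hA hβ)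
  refine ⟨E, ?_, fun α hα A => ?_⟩
  · have e : (2 * n - 2 / (((d : ℝ) + 1) ^ (2 * n + 1) + 1) : ℝ) =
        2 * ((n : ℝ) - 1) + (2 - 2 / (((d : ℝ) + 1) ^ (2 * n + 1) + 1)) := by ring
    rw [e]
    exact h1
  · obtain ⟨B, m₀, h⟩ := h2 α hα A
    refine ⟨B, m₀, fun m hm q hq hd P hP0 hPd hPc => ?_⟩
    by_contra hcon
    rw [not_lt] at hcon
    exact h m hm q hd ⟨hq, P, hP0, hPd, hPc, hcon⟩

end Pool.Agent.Results.MP_2ad15a_nt.PadicNeighbourhoods
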